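import Pool.Agent.Helper76.DE.StN

/-!
# Project PRD, module Vm: second moment of the number of visits
-/

set_option autoImplicit false

noncomputable section

namespace Pool.Agent.Helper34.PRD

open Pool.Agent.Helper76.ND Pool.Agent.Helper76.DE Finset

theorem mu_zero (hg0 : ∀ v : ℝ, v ≤ 1 / 2 → gg v = 0) (hg1 : ∀ v : ℝ, 3 / 2 ≤ v → gg v = 0)
    {y : ℝ} (hy : 0 < y) (N : ℕ) (h : (N : ℝ) ≤ y / 2 ∨ 3 / 2 * y ≤ N) : mu y N = 0 := by
  unfold mu
  rcases h with h | h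
  · rw [hg0 _ (by rw [div_le_iff₀ hy]; linarith), zero_div]
  · rw [hg1 _ (by rw [le_div_iff₀ hy]; linarith), zero_div]

theorem mu_nonneg (hg : ∀ v : ℝ, 0 ≤ gg v ∧ gg v ≤ 1 / 4 ∧ 0 ≤ v * gg v ∧ v * gg v ≤ 1 / 4)
    {y : ℝ} (hy : 0 < y) (N : ℕ) : 0 ≤ mu y N := div_nonneg (hg _).1 hy.le

theorem mu_le (hg : ∀ v : ℝ, 0 ≤ gg v ∧ gg v ≤ 1 / 4 ∧ 0 ≤ v * gg v ∧ v * gg v ≤ 1 / 4)
    {y : ℝ} (hy : 0 < y) (N : ℕ) : mu y N ≤ 1 / (4 * y) := by
  unfold mu
  rw [div_le_div_iff₀ hy (by positivity)]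
  nlinarith [(hg ((N : ℝ) / y)).2.1]

theorem vis_nonneg (w : ℝ) (t N : ℕ) : 0 ≤ vis w t N := by
  unfold vis
  refine Finset.sum_nonneg fun i _ => ?_
  split_ifs <;> norm_num

theorem vis_le (w : ℝ) (t N : ℕ) : vis w t N ≤ t + 1 := by
  unfold vis
  calc (∑ i ∈ range (t + 1), if w ≤ (S^[i] N : ℕ) ∧ ((S^[i] N : ℕ) : ℝ) ≤ 2 * w then (1 : ℝ) else 0)
      ≤ ∑ i ∈ range (t + 1), (1 : ℝ) := by
        refine Finset.sum_le_sum fun i _ => ?_
        split_ifs <;> norm_num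
    _ = t + 1 := by simp

open Classical in
theorem hVm (hPo : StPo) (hPr : StPr) (hCy : StCy) (hBn : StBn) (hVb : StVb) (hVc : StVc) :
    StVm := by
  obtain ⟨x1, hx13, hP⟩ := hPr
  obtain ⟨x2, hx23, hV⟩ := hVc
  obtain ⟨-, hg, hg0, hg1, -⟩ := hPo
  refine ⟨max x1 x2, 15010, le_trans hx13 (le_max_left _ _), by norm_num, ?_⟩
  intro z x y w hx hYZ hw
  have hxx1 : x1 ≤ x := le_trans (le_max_left _ _) hx
  have hxx2 : x2 ≤ x := le_trans (le_max_right _ _) hx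
  obtain ⟨hz1, hY⟩ := hYZ
  obtain ⟨p1, p2, p3, p4, p5, -⟩ := hP x (y / z) hxx1 hY
  have hVN := fun N => hV z x y w N hxx2 ⟨hz1, hY⟩ hw
  have hx3 : 3 ≤ x := le_trans hx13 hxx1
  have hx0 : 0 < x := by linarith
  have hz0 : 0 < z := by linarith
  have hyz : x ≤ y := by
    have h1 : x * z ≤ y := by rwa [le_div_iff₀ hz0] at p2
    nlinarith
  have hy0 : 0 < y := by linarith
  change 1 ≤ tz z x y at p3
  change (tz z x y : ℝ) ≤ Real.log x / 2 at p4
  change (2 : ℝ) ^ (tz z x y) ≤ x ^ (1 / 4 : ℝ) at p5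
  set T := tz z x y with hT
  set L := Real.log x with hL
  have hL0 : 0 < L := by linarith
  set u := L ^ (1 / 3 : ℝ) with hu
  have hu0 : 0 < u := Real.rpow_pos_of_pos hL0 _
  have hu3 : u ^ 3 = L := by
    rw [hu, ← Real.rpow_natCast, ← Real.rpow_mul hL0.le]; norm_num
  have hu2 : L ^ (2 / 3 : ℝ) = u ^ 2 := by
    rw [hu, ← Real.rpow_natCast, ← Real.rpow_mul hL0.le]; norm_num
  rw [hu2] at hVN
  rw [hu2]
  set D := u ^ 2 with hD
  set bad := (Icc 1 ⌊2 * y⌋₊).filter (fun N => ¬ Gd D (wd T N)) with hbad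
  have hfl : (⌊2 * y⌋₊ : ℝ) ≤ 2 * y := Nat.floor_le (by linarith)
  have h2x : x ^ (1 / 4 : ℝ) ≤ x := by
    conv_rhs => rw [← Real.rpow_one x]
    exact Real.rpow_le_rpow_of_exponent_le (by linarith) (by norm_num)
  have h2y : (2 : ℝ) ^ T ≤ y := by linarith
  -- number of bad
  have hbadc : (bad.card : ℝ) ≤ 4 * y * (u ^ 3 * Real.exp (-(4 * u))) := by
    have h2t : 2 ^ T ≤ ⌊2 * y⌋₊ := by
      apply Nat.le_floor
      push_cast
      linarith
    have h1 := hBn ⌊2 * y⌋₊ T D p3 h2t (by positivity)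
    have h1' : (bad.card : ℝ) ≤ 4 * (⌊2 * y⌋₊ : ℝ) * (T : ℝ) *
        Real.exp (-(2 * D ^ 2 / (T : ℝ))) := by
      convert h1 using 2
    have ht0 : (0 : ℝ) < T := by exact_mod_cast p3
    have h3 : 4 * u ≤ 2 * D ^ 2 / (T : ℝ) := by
      rw [le_div_iff₀ ht0]
      have h5 : 4 * u * (T : ℝ) ≤ 4 * u * (L / 2) :=
        mul_le_mul_of_nonneg_left p4 (by positivity)
      have h6 : 4 * u * (L / 2) = 2 * D ^ 2 := by
        rw [← hu3, hD]; ring
      linarith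
    have h4 : Real.exp (-(2 * D ^ 2 / (T : ℝ))) ≤ Real.exp (-(4 * u)) :=
      Real.exp_le_exp.2 (by linarith)
    calc (bad.card : ℝ) ≤ 4 * (⌊2 * y⌋₊ : ℝ) * (T : ℝ) *
          Real.exp (-(2 * D ^ 2 / (T : ℝ))) := h1'
      _ ≤ 4 * (2 * y) * (u ^ 3 / 2) * Real.exp (-(4 * u)) := by
          apply mul_le_mul _ h4 (Real.exp_pos _).le (by positivity)
          apply mul_le_mul _ _ ht0.le (by positivity)
          · linarith
          · rw [hu3]; exact p4
      _ = 4 * y * (u ^ 3 * Real.exp (-(4 * u))) := by ring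
  have hexp : u ^ 9 * Real.exp (-(4 * u)) ≤ 2 := by
    have h1 := Real.pow_div_factorial_le_exp (4 * u) (by positivity) 9
    have h2 : u ^ 9 ≤ 2 * Real.exp (4 * u) := by
      have h3 : ((Nat.factorial 9 : ℕ) : ℝ) = 362880 := by norm_num [Nat.factorial]
      rw [h3, div_le_iff₀ (by norm_num)] at h1
      have h4 : (4 * u) ^ 9 = 262144 * u ^ 9 := by ring
      rw [h4] at h1
      have := Real.exp_pos (4 * u)
      nlinarith
    rw [Real.exp_neg, ← div_eq_mul_inv, div_le_iff₀ (Real.exp_pos _)]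
    linarith
  have hT1 : (T : ℝ) + 1 ≤ 3 / 2 * u ^ 3 := by rw [hu3]; linarith
  have hT0 : (0 : ℝ) ≤ T := by positivity
  constructor
  · -- first part
    have hpt : ∀ N ∈ Icc 1 ⌊2 * y⌋₊, mu y N * vis w T N ^ 2 ≤
        1 / (4 * y) * Uv (w / y) (wd T N) ^ 2 +
          (if ¬ Gd D (wd T N) then 1 / (4 * y) * (3 / 2 * u ^ 3) ^ 2 else 0) := by
      intro N hN
      have hmu := mu_nonneg hg hy0 N
      have hmu' := mu_le hg hy0 N
      have hv0 := vis_nonneg w T N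
      by_cases hGd : Gd D (wd T N)
      · rw [if_neg (not_not.2 hGd), add_zero]
        by_cases hz : mu y N = 0
        · rw [hz, zero_mul]; positivity
        · have hN1 : y / 2 ≤ N := by
            by_contra hcon
            push Not at hcon
            exact hz (mu_zero hg0 hg1 hy0 N (Or.inl hcon.le))
          have hN2 : (N : ℝ) ≤ 3 / 2 * y := by
            by_contra hcon
            push Not at hcon
            exact hz (mu_zero hg0 hg1 hy0 N (Or.inr hcon.le))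
          have h1 := hVN N hN1 hN2 hGd
          have h2 : vis w T N ^ 2 ≤ Uv (w / y) (wd T N) ^ 2 := pow_le_pow_left₀ hv0 h1 2
          exact mul_le_mul hmu' h2 (by positivity) (by positivity)
      · rw [if_pos hGd]
        have h1 : vis w T N ≤ 3 / 2 * u ^ 3 := le_trans (vis_le w T N) hT1
        have h2 : vis w T N ^ 2 ≤ (3 / 2 * u ^ 3) ^ 2 := pow_le_pow_left₀ hv0 h1 2
        have h3 : mu y N * vis w T N ^ 2 ≤ 1 / (4 * y) * (3 / 2 * u ^ 3) ^ 2 :=
          mul_le_mul hmu' h2 (by positivity) (by positivity)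
        have h4 : 0 ≤ 1 / (4 * y) * Uv (w / y) (wd T N) ^ 2 := by positivity
        linarith
    have hUs : ∑ N ∈ Icc 1 ⌊2 * y⌋₊, Uv (w / y) (wd T N) ^ 2 ≤ 60000 * y := by
      have h1 : ∑ N ∈ Icc 1 ⌊2 * y⌋₊, Uv (w / y) (wd T N) ^ 2 =
          ∑ l ∈ W T, ∑ N ∈ (Icc 1 ⌊2 * y⌋₊).filter (fun N => wd T N = l),
            Uv (w / y) (wd T N) ^ 2 :=
        (Finset.sum_fiberwise_of_maps_to (fun N _ => wd_mem T N) _).symm
      rw [h1]
      have h2 : ∀ l ∈ W T, ∑ N ∈ (Icc 1 ⌊2 * y⌋₊).filter (fun N => wd T N = l),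
            Uv (w / y) (wd T N) ^ 2 ≤ 3 * y / 2 ^ T * Uv (w / y) l ^ 2 := by
        intro l _
        have h3 : ∑ N ∈ (Icc 1 ⌊2 * y⌋₊).filter (fun N => wd T N = l),
            Uv (w / y) (wd T N) ^ 2 = ∑ N ∈ (Icc 1 ⌊2 * y⌋₊).filter (fun N => wd T N = l),
            Uv (w / y) l ^ 2 := by
          refine Finset.sum_congr rfl fun N hN => ?_
          rw [(Finset.mem_filter.1 hN).2]
        rw [h3, Finset.sum_const, nsmul_eq_mul]
        refine mul_le_mul_of_nonneg_right ?_ (by positivity)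
        have h4 := hCy T ⌊2 * y⌋₊ l
        have h5 : (((Icc 1 ⌊2 * y⌋₊).filter (fun N => wd T N = l)).card : ℝ) ≤
            ((⌊2 * y⌋₊ / 2 ^ T + 1 : ℕ) : ℝ) := by
          have h6 : ((Icc 1 ⌊2 * y⌋₊).filter (fun N => wd T N = l)).card ≤
            ⌊2 * y⌋₊ / 2 ^ T + 1 := by convert h4
          exact_mod_cast h6
        refine le_trans h5 ?_
        push_cast
        have h7 : ((⌊2 * y⌋₊ / 2 ^ T : ℕ) : ℝ) ≤ (⌊2 * y⌋₊ : ℝ) / 2 ^ T := by
          have := @Nat.cast_div_le ℝ _ _ _ ⌊2 * y⌋₊ (2 ^ T)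
          push_cast at this
          exact this
        have h8 : (⌊2 * y⌋₊ : ℝ) / 2 ^ T ≤ 2 * y / 2 ^ T :=
          div_le_div_of_nonneg_right hfl (by positivity)
        have h9 : (1 : ℝ) ≤ y / 2 ^ T := by
          rw [le_div_iff₀ (by positivity)]; linarith
        have h10 : 3 * y / 2 ^ T = 2 * y / 2 ^ T + y / 2 ^ T := by ring
        rw [h10]
        linarith
      refine le_trans (Finset.sum_le_sum h2) ?_
      rw [← Finset.mul_sum]
      have h3 := hVb T (w / y) (by positivity)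
      have h4 : 3 * y / 2 ^ T * ∑ l ∈ W T, Uv (w / y) l ^ 2 ≤
          3 * y / 2 ^ T * (20000 * 2 ^ T) :=
        mul_le_mul_of_nonneg_left h3 (by positivity)
      have h5 : 3 * y / 2 ^ T * (20000 * 2 ^ T) = 60000 * y := by
        field_simp
        norm_num
      linarith
    calc ∑ N ∈ Icc 1 ⌊2 * y⌋₊, mu y N * vis w T N ^ 2
        ≤ ∑ N ∈ Icc 1 ⌊2 * y⌋₊, (1 / (4 * y) * Uv (w / y) (wd T N) ^ 2 +
          (if ¬ Gd D (wd T N) then 1 / (4 * y) * (3 / 2 * u ^ 3) ^ 2 else 0)) :=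
          Finset.sum_le_sum hpt
      _ = 1 / (4 * y) * ∑ N ∈ Icc 1 ⌊2 * y⌋₊, Uv (w / y) (wd T N) ^ 2 +
          (bad.card : ℝ) * (1 / (4 * y) * (3 / 2 * u ^ 3) ^ 2) := by
          rw [Finset.sum_add_distrib, ← Finset.mul_sum, ← Finset.sum_filter, Finset.sum_const,
            nsmul_eq_mul]
      _ ≤ 1 / (4 * y) * (60000 * y) +
          (4 * y * (u ^ 3 * Real.exp (-(4 * u)))) * (1 / (4 * y) * (3 / 2 * u ^ 3) ^ 2) := by
          have h1 : 1 / (4 * y) * ∑ N ∈ Icc 1 ⌊2 * y⌋₊, Uv (w / y) (wd T N) ^ 2 ≤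
            1 / (4 * y) * (60000 * y) := mul_le_mul_of_nonneg_left hUs (by positivity)
          have h2 : (bad.card : ℝ) * (1 / (4 * y) * (3 / 2 * u ^ 3) ^ 2) ≤
            (4 * y * (u ^ 3 * Real.exp (-(4 * u)))) * (1 / (4 * y) * (3 / 2 * u ^ 3) ^ 2) :=
            mul_le_mul_of_nonneg_right hbadc (by positivity)
          linarith
      _ = 15000 + 9 / 4 * (u ^ 9 * Real.exp (-(4 * u))) := by
          field_simp
          ring
      _ ≤ 15010 := by linarith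
  · -- second part
    have h1 : ∑ N ∈ bad, mu y N * ((T : ℝ) + 1) ≤ ∑ N ∈ bad, 1 / (4 * y) * (3 / 2 * u ^ 3) := by
      refine Finset.sum_le_sum fun N _ => ?_
      exact mul_le_mul (mu_le hg hy0 N) hT1 (by positivity) (by positivity)
    have h2 : ∑ N ∈ bad, 1 / (4 * y) * (3 / 2 * u ^ 3) =
        (bad.card : ℝ) * (1 / (4 * y) * (3 / 2 * u ^ 3)) := by
      rw [Finset.sum_const, nsmul_eq_mul]
    have h3 : (bad.card : ℝ) * (1 / (4 * y) * (3 / 2 * u ^ 3)) ≤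
        (4 * y * (u ^ 3 * Real.exp (-(4 * u)))) * (1 / (4 * y) * (3 / 2 * u ^ 3)) :=
      mul_le_mul_of_nonneg_right hbadc (by positivity)
    have h4 : (4 * y * (u ^ 3 * Real.exp (-(4 * u)))) * (1 / (4 * y) * (3 / 2 * u ^ 3)) =
        3 / 2 * (u ^ 9 * Real.exp (-(4 * u))) / L := by
      rw [← hu3]
      field_simp
    have h5 : 3 / 2 * (u ^ 9 * Real.exp (-(4 * u))) / L ≤ 15010 / L := by
      refine div_le_div_of_nonneg_right ?_ hL0.le
      linarith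
    calc ∑ N ∈ bad, mu y N * ((T : ℝ) + 1) ≤ _ := h1
      _ = _ := h2
      _ ≤ _ := h3
      _ = _ := h4
      _ ≤ _ := h5

end Pool.Agent.Helper34.PRD
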